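import Pool.Agent.Helper62.DSH.StA

/-!
# Project DSH (MP_087a81_gt): module ALT (alternating tensors are the components of alternating maps)
-/

set_option autoImplicit false

open Set Filter Topology MeasureTheory
open Helper62.LH Helper62.DSH

noncomputable section

namespace Pool.Agent.Helper8.DSH

/-- the multilinear map with the components `t` -/
private def mul {n j : ℕ} (t : Tn n j) : MultilinearMap ℝ (fun _ : Fin j => Fin n → ℝ) ℝ :=
  ∑ I : Fin j → Fin n, t I •
    (MultilinearMap.mkPiAlgebra ℝ (Fin j) ℝ).compLinearMap (fun k => LinearMap.proj (I k))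

private lemma mul_apply {n j : ℕ} (t : Tn n j) (v : Fin j → Fin n → ℝ) :
    mul t v = ∑ I : Fin j → Fin n, t I * ∏ k, v k (I k) := by
  unfold mul
  rw [MultilinearMap.sum_apply]
  refine Finset.sum_congr rfl (fun I _ => ?_)
  rw [MultilinearMap.smul_apply, MultilinearMap.compLinearMap_apply, MultilinearMap.mkPiAlgebra_apply,
    smul_eq_mul]
  rfl

private lemma mul_eq_zero' {n j : ℕ} {t : Tn n j} (ht : Altn t) (v : Fin j → Fin n → ℝ) (p q : Fin j)
    (h : v p = v q) (hpq : p ≠ q) : mul t v = 0 := by
  have hv : ∀ k, v (Equiv.swap p q k) = v k := by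
    intro k
    rcases eq_or_ne k p with rfl | hkp
    · rw [Equiv.swap_apply_left]
      exact h.symm
    · rcases eq_or_ne k q with rfl | hkq
      · rw [Equiv.swap_apply_right]
        exact h
      · rw [Equiv.swap_apply_of_ne_of_ne hkp hkq]
  have h1 : mul t v = -mul t v := by
    conv_lhs => rw [mul_apply]
    rw [mul_apply, ← Finset.sum_neg_distrib]
    have e : ∑ I : Fin j → Fin n, t I * ∏ k, v k (I k) =
        ∑ I : Fin j → Fin n, t (I ∘ Equiv.swap p q) * ∏ k, v k ((I ∘ Equiv.swap p q) k) := by
      refine Fintype.sum_bijective (fun I : Fin j → Fin n => I ∘ Equiv.swap p q) ?_ _ _ ?_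
      · refine Function.Involutive.bijective ?_
        intro I
        funext k
        show I (Equiv.swap p q (Equiv.swap p q k)) = I k
        rw [Equiv.swap_apply_self]
      · intro I
        have : (I ∘ Equiv.swap p q) ∘ Equiv.swap p q = I := by
          funext k
          show I (Equiv.swap p q (Equiv.swap p q k)) = I k
          rw [Equiv.swap_apply_self]
        rw [this]
    rw [e]
    refine Finset.sum_congr rfl (fun I _ => ?_)
    rw [ht I (Equiv.swap p q), Equiv.Perm.sign_swap hpq]
    have e2 : ∏ k, v k ((I ∘ Equiv.swap p q) k) = ∏ k, v k (I k) := by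
      rw [← Equiv.prod_comp (Equiv.swap p q) (fun k => v k (I k))]
      refine Finset.prod_congr rfl (fun k _ => ?_)
      rw [hv]
      rfl
    rw [e2]
    push_cast
    ring
  linarith

private def alt {n j : ℕ} {t : Tn n j} (ht : Altn t) : (Fin n → ℝ) [⋀^Fin j]→ₗ[ℝ] ℝ :=
  { mul t with
    map_eq_zero_of_eq' := fun v p q h hpq => mul_eq_zero' ht v p q h hpq }

private lemma alt_apply {n j : ℕ} {t : Tn n j} (ht : Altn t) (v : Fin j → Fin n → ℝ) :
    alt ht v = ∑ I : Fin j → Fin n, t I * ∏ k, v k (I k) :=
  mul_apply t v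

private lemma alt_single {n j : ℕ} {t : Tn n j} (ht : Altn t) (I : Fin j → Fin n) :
    alt ht (fun k => Pi.single (I k) 1) = t I := by
  rw [alt_apply, Finset.sum_eq_single I]
  · have : ∏ k, (Pi.single (I k) (1 : ℝ) : Fin n → ℝ) (I k) = 1 := by
      refine Finset.prod_eq_one (fun k _ => ?_)
      rw [Pi.single_eq_same]
    rw [this, mul_one]
  · intro J _ hJ
    have hne : ∃ k, J k ≠ I k := by
      by_contra hc
      push Not at hc
      exact hJ (funext hc)
    obtain ⟨k, hk⟩ := hne
    have : ∏ k, (Pi.single (I k) (1 : ℝ) : Fin n → ℝ) (J k) = 0 := by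
      refine Finset.prod_eq_zero (Finset.mem_univ k) ?_
      rw [Pi.single_eq_of_ne hk]
    rw [this, mul_zero]
  · intro h
    exact absurd (Finset.mem_univ I) h

theorem hAlt : TAlt := by
  intro n j
  refine ⟨fun t ht => ⟨alt ht, alt_single ht⟩, ?_, ?_, ?_⟩
  · intro A I σ
    show A (fun k => Pi.single ((I ∘ σ) k) 1) = ((Equiv.Perm.sign σ : ℤ) : ℝ) * A (fun k => Pi.single (I k) 1)
    have h1 := A.map_perm (fun k => (Pi.single (I k) 1 : Fin n → ℝ)) σ
    have h2 : (fun k => (Pi.single ((I ∘ σ) k) 1 : Fin n → ℝ)) =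
        (fun k => (Pi.single (I k) 1 : Fin n → ℝ)) ∘ σ := rfl
    rw [h2, h1, Units.smul_def, zsmul_eq_mul]
  · intro t ht I hI
    rw [Function.Injective] at hI
    push Not at hI
    obtain ⟨p, q, hpq, hne⟩ := hI
    have h1 := ht I (Equiv.swap p q)
    have h2 : I ∘ Equiv.swap p q = I := by
      funext k
      show I (Equiv.swap p q k) = I k
      rcases eq_or_ne k p with rfl | hkp
      · rw [Equiv.swap_apply_left]
        exact hpq.symm
      · rcases eq_or_ne k q with rfl | hkq
        · rw [Equiv.swap_apply_right]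
          exact hpq
        · rw [Equiv.swap_apply_of_ne_of_ne hkp hkq]
    rw [h2, Equiv.Perm.sign_swap hne] at h1
    push_cast at h1
    linarith
  · intro t ht p a K
    have h1 := ht (Fin.cons a K) p.cycleRange
    have h2 : (Fin.cons a K : Fin (j + 1) → Fin n) ∘ p.cycleRange = p.insertNth a K :=
      Fin.cons_comp_cycleRange a K p
    rw [h2, Fin.sign_cycleRange] at h1
    rw [h1]
    push_cast
    ring

end Pool.Agent.Helper8.DSH
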